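import Pool.Agent.Lib_helper32.EvenHomeo.SpaceCoordK

/-!
# HHINJ: the explicit coordinate map is injective away from the points sent to infinity
-/

open Set Metric Topology

namespace Pool.Agent.EvenHomeo

open Pool.Agent.MinHomeo (Amb Sph)

namespace SpaceCoord

/-- the product of the fibre coordinates gives back the base coordinate -/
theorem hhInj_prod {σ : ℝ} (hσ : σ = 1 ∨ σ = -1) (A : ℂ) (y b : ℝ) {c : ℂ} (hc : ‖c‖ = 1) :
    Q1 σ A y b c * (starRingEnd ℂ) (Q2 σ A y b c) = ((nrm A y / 2 : ℝ) : ℂ) * A := by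
  have h1 := Complex.norm_mul_exp_arg_mul_I ((σ : ℂ) * A)
  rw [norm_mul, norm_sigma hσ, one_mul] at h1
  have h2 : (σ : ℂ) * σ = 1 := by
    rcases hσ with rfl | rfl <;> norm_num
  have hcc : c * (starRingEnd ℂ) c = 1 := by
    rw [Complex.mul_conj, Complex.normSq_eq_norm_sq, hc]
    norm_num
  have h3 : Q1 σ A y b c * (starRingEnd ℂ) (Q2 σ A y b c) =
      (c * (starRingEnd ℂ) c) * ((σ : ℂ) * Complex.exp ((((σ : ℂ) * A).arg : ℂ) * Complex.I) *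
        ((q1 A y * q2 A y : ℝ) : ℂ)) := by
    unfold Q1 Q2
    rw [map_mul, map_mul, Complex.conj_ofReal, ← Complex.exp_conj, map_mul,
      Complex.conj_ofReal, Complex.conj_I]
    have h4 : Complex.exp ((((σ : ℂ) * A).arg : ℂ) * Complex.I) =
        Complex.exp ((((σ : ℂ) * A).arg * (1 - b) : ℝ) * Complex.I) *
        Complex.exp ((-(((σ : ℂ) * A).arg * b) : ℝ) * -Complex.I) := by
      rw [← Complex.exp_add]
      congr 1
      push_cast
      ring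
    rw [h4]
    push_cast
    ring
  have hq : q1 A y * q2 A y = nrm A y / 2 * ‖A‖ := by
    have h5 : (q1 A y * q2 A y) ^ 2 = (nrm A y / 2 * ‖A‖) ^ 2 := by
      have h6 := nrm_sq A y
      have h7 : ‖A‖ ^ 2 = nrm A y ^ 2 - y ^ 2 := by linarith
      rw [mul_pow, q1_sq, q2_sq, mul_pow, h7]
      ring
    have h8 : 0 ≤ q1 A y * q2 A y := mul_nonneg (q1_nonneg A y) (q2_nonneg A y)
    have h9 : 0 ≤ nrm A y / 2 * ‖A‖ :=
      mul_nonneg (by have := nrm_nonneg A y; linarith) (norm_nonneg A)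
    exact (sq_eq_sq₀ h8 h9).1 h5
  rw [h3, hcc, one_mul, hq]
  have h10 : (σ : ℂ) * Complex.exp ((((σ : ℂ) * A).arg : ℂ) * Complex.I) *
      ((nrm A y / 2 * ‖A‖ : ℝ) : ℂ) = ((nrm A y / 2 : ℝ) : ℂ) * ((σ : ℂ) *
        ((‖A‖ : ℂ) * Complex.exp ((((σ : ℂ) * A).arg : ℂ) * Complex.I))) := by
    push_cast
    ring
  rw [h10, h1, ← mul_assoc (σ : ℂ), h2, one_mul]

/-- the difference of the squared norms of the fibre coordinates -/
theorem hhInj_diff {σ : ℝ} (hσ : σ = 1 ∨ σ = -1) (A : ℂ) (y b : ℝ) {c : ℂ} (hc : ‖c‖ = 1) :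
    ‖Q1 σ A y b c‖ ^ 2 - ‖Q2 σ A y b c‖ ^ 2 = nrm A y * y := by
  rw [norm_Q1 hσ A y b hc, norm_Q2 σ A y b hc, q1_sq, q2_sq]
  ring

/-- the direction `(f₁, f₂)/r` is determined by the affine coordinates -/
theorem hhInj_dir {f₁ f₂ : ℂ} {r : ℝ} (hr : 0 < r) (hn : ‖f₁‖ ^ 2 + ‖f₂‖ ^ 2 = r ^ 2)
    (hne : r ≠ f₁.re) {a : ℝ} {d : ℂ} (ha : f₁.im / (r - f₁.re) = a)
    (hd : f₂ / ((r - f₁.re : ℝ) : ℂ) = d) :
    f₁ = (r : ℂ) * ⟨(a ^ 2 + ‖d‖ ^ 2 - 1) / (a ^ 2 + ‖d‖ ^ 2 + 1), 2 * a / (a ^ 2 + ‖d‖ ^ 2 + 1)⟩ ∧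
      f₂ = (r : ℂ) * (((2 / (a ^ 2 + ‖d‖ ^ 2 + 1) : ℝ) : ℂ) * d) := by
  set m : ℝ := r - f₁.re with hm
  have hm0 : m ≠ 0 := sub_ne_zero.2 hne
  have hmC : (m : ℂ) ≠ 0 := by exact_mod_cast hm0
  have him : f₁.im = a * m := by rw [← ha]; field_simp
  have hf2 : f₂ = d * (m : ℂ) := by rw [← hd]; field_simp
  have hre : f₁.re = r - m := by rw [hm]; ring
  have hnf2 : ‖f₂‖ ^ 2 = ‖d‖ ^ 2 * m ^ 2 := by
    rw [hf2, norm_mul, Complex.norm_real, mul_pow, Real.norm_eq_abs, sq_abs]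
  have hnf1 : ‖f₁‖ ^ 2 = (r - m) ^ 2 + (a * m) ^ 2 := by
    rw [Complex.sq_norm, Complex.normSq_apply, him, hre]
    ring
  rw [hnf1, hnf2] at hn
  have hs1 : 0 < a ^ 2 + ‖d‖ ^ 2 + 1 := by positivity
  have hkey : m * (a ^ 2 + ‖d‖ ^ 2 + 1) = 2 * r := by
    have h1 : m * (m * (a ^ 2 + ‖d‖ ^ 2 + 1) - 2 * r) = 0 := by nlinarith
    rcases mul_eq_zero.1 h1 with h2 | h2
    · exact absurd h2 hm0
    · linarith
  have hmv : m = r * (2 / (a ^ 2 + ‖d‖ ^ 2 + 1)) := by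
    field_simp
    linarith
  constructor
  · apply Complex.ext
    · rw [Complex.re_ofReal_mul, hre]
      simp only
      rw [hmv]
      field_simp
      ring
    · rw [Complex.im_ofReal_mul, him]
      simp only
      rw [hmv]
      ring
  · rw [hf2, hmv]
    push_cast
    ring

/-- the base point is determined by its four functions -/
theorem hhInj_base {k : ℕ} {z z' : B_ k} (h1 : Yc z = Yc z') (h2 : Y3 z = Y3 z')
    (h3 : X0 z = X0 z') (h4 : cw z = cw z') : z = z' := by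
  have hsq : (√2 : ℝ) ≠ 0 := by positivity
  have e1 : (c1 z).im = (c1 z').im := congrArg Complex.re h1
  have e2 : -(c0 z).im = -(c0 z').im := congrArg Complex.im h1
  have e3 : (c0 z).re + (c1 z).re = (c0 z').re + (c1 z').re := by
    unfold Y3 at h2
    have h5 : ((c0 z).re + (c1 z).re) / √2 = ((c0 z').re + (c1 z').re) / √2 := by linarith
    field_simp at h5
    exact h5
  have e4 : (c0 z).re - (c1 z).re = (c0 z').re - (c1 z').re := by
    unfold X0 at h3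
    field_simp at h3
    exact h3
  refine c_ext ?_ ?_ h4
  · apply Complex.ext
    · linarith
    · linarith
  · apply Complex.ext
    · linarith
    · exact e1

theorem hhInj_eT {υ υ' : T} (h : eT υ = eT υ') : υ = υ' := by
  have h1 : AddCircle.toCircle υ = AddCircle.toCircle υ' := Subtype.ext h
  exact AddCircle.injective_toCircle one_ne_zero h1

/-- the radius is determined -/
theorem hhInj_radius {r r' K g : ℝ} (hr : 0 < r) (hr' : 0 < r') (hK : 0 < K)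
    (h : r ^ 2 * K + 9 / 5 * r * g = 19 / 100) (h' : r' ^ 2 * K + 9 / 5 * r' * g = 19 / 100) :
    r = r' := by
  by_contra hne
  have h1 : (r - r') * (r * r' * K + 19 / 100) = 0 := by
    have e1 : r' * (r ^ 2 * K + 9 / 5 * r * g) = r' * (19 / 100) := by rw [h]
    have e2 : r * (r' ^ 2 * K + 9 / 5 * r' * g) = r * (19 / 100) := by rw [h']
    nlinarith
  rcases mul_eq_zero.1 h1 with h2 | h2
  · exact hne (by linarith)
  · have : 0 < r * r' * K := by positivity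
    linarith

/-- HHINJ -/
theorem hhInj (k : ℕ) : HhInj_Stmt k := by
  intro σ b hσ _ p p' heq hfin
  obtain ⟨z, υ⟩ := p
  obtain ⟨z', υ'⟩ := p'
  have hfin' : hh σ b (z', υ') ≠ OnePoint.infty := by rw [← heq]; exact hfin
  set c := eT υ with hc
  set c' := eT υ' with hc'
  have hcn : ‖c‖ = 1 := norm_eT υ
  have hcn' : ‖c'‖ = 1 := norm_eT υ'
  set A := Yc z with hA
  set A' := Yc z' with hA'
  set y := Y3 z with hy
  set y' := Y3 z' with hy'
  set f₁ := Q1 (σ z) A y (b z) c with hf₁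
  set f₂ := Q2 (σ z) A y (b z) c with hf₂
  set f₁' := Q1 (σ z') A' y' (b z') c' with hf₁'
  set f₂' := Q2 (σ z') A' y' (b z') c' with hf₂'
  set r := nrm A y with hr
  set r' := nrm A' y' with hr'
  have hhz : hh σ b (z, υ) = Phi f₁ f₂ r (X0 z) (cw z) := rfl
  have hhz' : hh σ b (z', υ') = Phi f₁' f₂' r' (X0 z') (cw z') := rfl
  rw [hhz] at hfin heq
  rw [hhz'] at hfin' heq
  have hne : r ≠ f₁.re := by
    intro h
    apply hfin
    unfold Phi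
    rw [if_pos h]
  have hne' : r' ≠ f₁'.re := by
    intro h
    apply hfin'
    unfold Phi
    rw [if_pos h]
  have hnsq : ‖f₁‖ ^ 2 + ‖f₂‖ ^ 2 = r ^ 2 := norm_Q_sq (hσ z) A y (b z) hcn
  have hnsq' : ‖f₁'‖ ^ 2 + ‖f₂'‖ ^ 2 = r' ^ 2 := norm_Q_sq (hσ z') A' y' (b z') hcn'
  have hr0 : 0 < r := by
    rcases (nrm_nonneg A y).lt_or_eq with h | h
    · exact h
    · exfalso
      apply hne
      have h1 : r = 0 := h.symm
      have h2 : ‖f₁‖ ^ 2 = 0 := by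
        rw [h1] at hnsq
        nlinarith [sq_nonneg ‖f₁‖, sq_nonneg ‖f₂‖]
      have h3 : f₁ = 0 := by
        rw [sq_eq_zero_iff, norm_eq_zero] at h2
        exact h2
      rw [h3, h1, Complex.zero_re]
  have hr0' : 0 < r' := by
    rcases (nrm_nonneg A' y').lt_or_eq with h | h
    · exact h
    · exfalso
      apply hne'
      have h1 : r' = 0 := h.symm
      have h2 : ‖f₁'‖ ^ 2 = 0 := by
        rw [h1] at hnsq'
        nlinarith [sq_nonneg ‖f₁'‖, sq_nonneg ‖f₂'‖]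
      have h3 : f₁' = 0 := by
        rw [sq_eq_zero_iff, norm_eq_zero] at h2
        exact h2
      rw [h3, h1, Complex.zero_re]
  unfold Phi at heq
  rw [if_neg hne, if_neg hne'] at heq
  have heq' := OnePoint.coe_injective heq
  rw [Prod.mk.injEq, Prod.mk.injEq, Prod.mk.injEq] at heq'
  obtain ⟨e1, e2, e3, e4⟩ := heq'
  obtain ⟨d1, d2⟩ := hhInj_dir hr0 hnsq hne rfl rfl
  obtain ⟨d1', d2'⟩ := hhInj_dir hr0' hnsq' hne' rfl rfl
  rw [← e1, ← e2] at d1' d2'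
  set g₁ : ℂ := ⟨((f₁.im / (r - f₁.re)) ^ 2 + ‖f₂ / ((r - f₁.re : ℝ) : ℂ)‖ ^ 2 - 1) /
    ((f₁.im / (r - f₁.re)) ^ 2 + ‖f₂ / ((r - f₁.re : ℝ) : ℂ)‖ ^ 2 + 1),
    2 * (f₁.im / (r - f₁.re)) /
      ((f₁.im / (r - f₁.re)) ^ 2 + ‖f₂ / ((r - f₁.re : ℝ) : ℂ)‖ ^ 2 + 1)⟩ with hg₁
  set g₂ : ℂ := ((2 / ((f₁.im / (r - f₁.re)) ^ 2 + ‖f₂ / ((r - f₁.re : ℝ) : ℂ)‖ ^ 2 + 1) : ℝ) : ℂ)
    * (f₂ / ((r - f₁.re : ℝ) : ℂ)) with hg₂
  -- x and w
  have hx : X0 z' = r' * (X0 z / r) := by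
    rw [e3]
    field_simp
  have hx0 : X0 z = r * (X0 z / r) := by
    field_simp
  have hw : cw z' = r' • (r⁻¹ • cw z) := by
    rw [e4, smul_inv_smul₀ hr0'.ne']
  have hw0 : cw z = r • (r⁻¹ • cw z) := by
    rw [smul_inv_smul₀ hr0.ne']
  -- y
  have hyg : y = r * (‖g₁‖ ^ 2 - ‖g₂‖ ^ 2) := by
    have h1 : ‖f₁‖ ^ 2 - ‖f₂‖ ^ 2 = r * y := hhInj_diff (hσ z) A y (b z) hcn
    rw [d1, d2, norm_mul, norm_mul, Complex.norm_real, Real.norm_of_nonneg hr0.le] at h1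
    have h2 : r * (r * (‖g₁‖ ^ 2 - ‖g₂‖ ^ 2)) = r * y := by rw [← h1]; ring
    exact (mul_left_cancel₀ hr0.ne' h2).symm
  have hyg' : y' = r' * (‖g₁‖ ^ 2 - ‖g₂‖ ^ 2) := by
    have h1 : ‖f₁'‖ ^ 2 - ‖f₂'‖ ^ 2 = r' * y' := hhInj_diff (hσ z') A' y' (b z') hcn'
    rw [d1', d2', norm_mul, norm_mul, Complex.norm_real, Real.norm_of_nonneg hr0'.le] at h1
    have h2 : r' * (r' * (‖g₁‖ ^ 2 - ‖g₂‖ ^ 2)) = r' * y' := by rw [← h1]; ring
    exact (mul_left_cancel₀ hr0'.ne' h2).symm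
  -- the radius
  have hrr : r = r' := by
    have hs := sphere_id z
    have hs' := sphere_id z'
    rw [← hA, ← hy] at hs
    rw [← hA', ← hy'] at hs'
    have hn := nrm_sq A y
    have hn' := nrm_sq A' y'
    rw [← hr] at hn
    rw [← hr'] at hn'
    refine hhInj_radius (K := 1 + (X0 z / r) ^ 2 + ‖(r⁻¹ • cw z : F_ k)‖ ^ 2)
      (g := ‖g₁‖ ^ 2 - ‖g₂‖ ^ 2) hr0 hr0' (by positivity) ?_ ?_
    · have h1 : ‖cw z‖ = r * ‖(r⁻¹ • cw z : F_ k)‖ := by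
        conv_lhs => rw [hw0]
        rw [norm_smul, Real.norm_of_nonneg hr0.le]
      have h2 : r ^ 2 * (1 + (X0 z / r) ^ 2 + ‖(r⁻¹ • cw z : F_ k)‖ ^ 2)
          = r ^ 2 + (r * (X0 z / r)) ^ 2 + (r * ‖(r⁻¹ • cw z : F_ k)‖) ^ 2 := by ring
      have h3 : 9 / 5 * r * (‖g₁‖ ^ 2 - ‖g₂‖ ^ 2) = 9 / 5 * y := by rw [hyg]; ring
      rw [h2, h3, ← hx0, ← h1]
      nlinarith
    · have h1 : ‖cw z'‖ = r' * ‖(r⁻¹ • cw z : F_ k)‖ := by
        conv_lhs => rw [hw]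
        rw [norm_smul, Real.norm_of_nonneg hr0'.le]
      have h2 : r' ^ 2 * (1 + (X0 z / r) ^ 2 + ‖(r⁻¹ • cw z : F_ k)‖ ^ 2)
          = r' ^ 2 + (r' * (X0 z / r)) ^ 2 + (r' * ‖(r⁻¹ • cw z : F_ k)‖) ^ 2 := by ring
      have h3 : 9 / 5 * r' * (‖g₁‖ ^ 2 - ‖g₂‖ ^ 2) = 9 / 5 * y' := by rw [hyg']; ring
      rw [h2, h3, ← hx, ← h1]
      nlinarith
  -- the base points agree
  have hAA : A = A' := by
    have h1 : f₁ * (starRingEnd ℂ) f₂ = ((r / 2 : ℝ) : ℂ) * A := hhInj_prod (hσ z) A y (b z) hcn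
    have h2 : f₁' * (starRingEnd ℂ) f₂' = ((r' / 2 : ℝ) : ℂ) * A' :=
      hhInj_prod (hσ z') A' y' (b z') hcn'
    rw [d1', d2', ← hrr] at h2
    rw [d1, d2] at h1
    have h3 : ((r / 2 : ℝ) : ℂ) ≠ 0 := by
      have : r / 2 ≠ 0 := by positivity
      exact_mod_cast this
    exact mul_left_cancel₀ h3 (h1.symm.trans h2)
  have hyy : y = y' := by rw [hyg, hyg', hrr]
  have hxx : X0 z = X0 z' := by rw [hx, ← hrr, ← hx0]
  have hww : cw z = cw z' := by rw [hw, ← hrr, ← hw0]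
  have hzz : z = z' := hhInj_base hAA hyy hxx hww
  subst hzz
  -- the phases agree
  have hf1 : f₁ = f₁' := by
    rw [d1, d1', ← hrr]
  have hf2 : f₂ = f₂' := by
    rw [d2, d2', ← hrr]
  have hcc : c = c' := by
    have h1 : f₁ = c * Q1 (σ z) A y (b z) 1 := by
      rw [hf₁]
      unfold Q1
      ring
    have h2 : f₂ = c * Q2 (σ z) A y (b z) 1 := by
      rw [hf₂]
      unfold Q2
      ring
    have h1' : f₁' = c' * Q1 (σ z) A y (b z) 1 := by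
      rw [hf₁']
      unfold Q1
      ring
    have h2' : f₂' = c' * Q2 (σ z) A y (b z) 1 := by
      rw [hf₂']
      unfold Q2
      ring
    by_cases h0 : Q1 (σ z) A y (b z) 1 = 0
    · have h3 : Q2 (σ z) A y (b z) 1 ≠ 0 := by
        intro h4
        rw [h1, h2, h0, h4, mul_zero, norm_zero] at hnsq
        nlinarith
      rw [h2, h2'] at hf2
      exact mul_right_cancel₀ h3 hf2
    · rw [h1, h1'] at hf1
      exact mul_right_cancel₀ h0 hf1
  have hυ : υ = υ' := hhInj_eT hcc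
  rw [hυ]

end SpaceCoord

end Pool.Agent.EvenHomeo
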