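import Pool.Agent.Lib_helper32.EvenHomeo.SpaceCoordQ

/-!
# HHSURJ: surjectivity of the explicit coordinate map onto the finite points
-/

open Set Metric Topology

namespace Pool.Agent.EvenHomeo

open Pool.Agent.MinHomeo (Amb Sph)

namespace SpaceCoord

/-- the norm of the ambient space in coordinates -/
theorem hhSurj_norm_sq {k : ℕ} (z : Amb (G_ k)) :
    ‖z‖ ^ 2 = ‖z.fst‖ ^ 2 + (‖z.snd.fst‖ ^ 2 + ‖z.snd.snd‖ ^ 2) := by
  rw [WithLp.prod_norm_sq_eq_of_L2, WithLp.prod_norm_sq_eq_of_L2]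

/-- every unit complex number is `eT υ` -/
theorem hhSurj_eT (c : ℂ) (hc : ‖c‖ = 1) : ∃ υ : T, eT υ = c := by
  have hc' : c ∈ Submonoid.unitSphere ℂ := by
    simpa [Submonoid.unitSphere] using hc
  obtain ⟨υ, hυ⟩ := (AddCircle.homeomorphCircle (T := 1) one_ne_zero).surjective
    (⟨c, hc'⟩ : Circle)
  refine ⟨υ, ?_⟩
  rw [AddCircle.homeomorphCircle_apply] at hυ
  unfold eT
  rw [hυ]

/-- the fibre: for `(g, u)` coming from a point `(a₁, a₂)` of the unit sphere of `ℂ²` there is a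
phase `c` with `(Q1, Q2) = u (a₁, a₂)`. -/
theorem hhSurj_fibre {σ : ℝ} (hσ : σ = 1 ∨ σ = -1) (b : ℝ) {a₁ a₂ : ℂ} {u : ℝ} (hu : 0 < u)
    (ha : ‖a₁‖ ^ 2 + ‖a₂‖ ^ 2 = 1) :
    ∃ c : ℂ, ‖c‖ = 1 ∧
      Q1 σ ((u : ℂ) * (2 * a₁ * (starRingEnd ℂ) a₂)) (u * (‖a₁‖ ^ 2 - ‖a₂‖ ^ 2)) b c
        = (u : ℂ) * a₁ ∧
      Q2 σ ((u : ℂ) * (2 * a₁ * (starRingEnd ℂ) a₂)) (u * (‖a₁‖ ^ 2 - ‖a₂‖ ^ 2)) b c
        = (u : ℂ) * a₂ ∧
      nrm ((u : ℂ) * (2 * a₁ * (starRingEnd ℂ) a₂)) (u * (‖a₁‖ ^ 2 - ‖a₂‖ ^ 2)) = u := by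
  set A : ℂ := (u : ℂ) * (2 * a₁ * (starRingEnd ℂ) a₂) with hA
  set y : ℝ := u * (‖a₁‖ ^ 2 - ‖a₂‖ ^ 2) with hy
  have hnA : ‖A‖ = 2 * u * ‖a₁‖ * ‖a₂‖ := by
    rw [hA, norm_mul, norm_mul, norm_mul, Complex.norm_real, RCLike.norm_conj,
      Real.norm_of_nonneg hu.le]
    norm_num
    ring
  have hnrm : nrm A y = u := by
    unfold nrm
    rw [hnA, hy]
    have h1 : (2 * u * ‖a₁‖ * ‖a₂‖) ^ 2 + (u * (‖a₁‖ ^ 2 - ‖a₂‖ ^ 2)) ^ 2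
        = (u * (‖a₁‖ ^ 2 + ‖a₂‖ ^ 2)) ^ 2 := by ring
    rw [h1, ha, mul_one, Real.sqrt_sq hu.le]
  have hq1 : q1 A y = u * ‖a₁‖ := by
    unfold q1
    rw [hnrm, hy]
    have h1 : u * (u + u * (‖a₁‖ ^ 2 - ‖a₂‖ ^ 2)) / 2 = (u * ‖a₁‖) ^ 2 := by
      have h2 : ‖a₂‖ ^ 2 = 1 - ‖a₁‖ ^ 2 := by linarith
      rw [h2]
      ring
    rw [h1, Real.sqrt_sq (by positivity)]
  have hq2 : q2 A y = u * ‖a₂‖ := by
    unfold q2
    rw [hnrm, hy]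
    have h1 : u * (u - u * (‖a₁‖ ^ 2 - ‖a₂‖ ^ 2)) / 2 = (u * ‖a₂‖) ^ 2 := by
      have h2 : ‖a₁‖ ^ 2 = 1 - ‖a₂‖ ^ 2 := by linarith
      rw [h2]
      ring
    rw [h1, Real.sqrt_sq (by positivity)]
  -- the section with phase 1
  set s₁ : ℂ := Q1 σ A y b 1 with hs₁
  set s₂ : ℂ := Q2 σ A y b 1 with hs₂
  have hn1 : ‖s₁‖ = u * ‖a₁‖ := by rw [hs₁, norm_Q1 hσ A y b (by simp), hq1]
  have hn2 : ‖s₂‖ = u * ‖a₂‖ := by rw [hs₂, norm_Q2 σ A y b (by simp), hq2]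
  have hc1 : ∀ c : ℂ, Q1 σ A y b c = c * s₁ := by
    intro c
    rw [hs₁]
    unfold Q1
    ring
  have hc2 : ∀ c : ℂ, Q2 σ A y b c = c * s₂ := by
    intro c
    rw [hs₂]
    unfold Q2
    ring
  have hu' : (u : ℂ) ≠ 0 := by exact_mod_cast hu.ne'
  -- the phase of the product
  have hprod : s₁ * (starRingEnd ℂ) s₂ = (u : ℂ) ^ 2 * (a₁ * (starRingEnd ℂ) a₂) := by
    have h1 := Complex.norm_mul_exp_arg_mul_I ((σ : ℂ) * A)
    rw [norm_mul, norm_sigma hσ, one_mul] at h1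
    have h2 : (σ : ℂ) * σ = 1 := by
      rcases hσ with rfl | rfl <;> norm_num
    have h3 : s₁ * (starRingEnd ℂ) s₂ =
        (σ : ℂ) * Complex.exp ((((σ : ℂ) * A).arg : ℂ) * Complex.I) * ((q1 A y : ℂ) * (q2 A y : ℂ)) := by
      rw [hs₁, hs₂]
      unfold Q1 Q2
      rw [map_mul, map_mul, map_one, Complex.conj_ofReal, ← Complex.exp_conj, map_mul,
        Complex.conj_ofReal, Complex.conj_I]
      have h4 : Complex.exp ((((σ : ℂ) * A).arg : ℂ) * Complex.I) =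
          Complex.exp ((((σ : ℂ) * A).arg * (1 - b) : ℝ) * Complex.I) *
          Complex.exp ((-(((σ : ℂ) * A).arg * b) : ℝ) * -Complex.I) := by
        rw [← Complex.exp_add]
        congr 1
        push_cast
        ring
      rw [h4]
      ring
    rw [h3, hq1, hq2]
    have h5 : (((u * ‖a₁‖ : ℝ) : ℂ) * ((u * ‖a₂‖ : ℝ) : ℂ)) = (u : ℂ) / 2 * (‖A‖ : ℂ) := by
      rw [hnA]
      push_cast
      ring
    rw [h5]
    have h6 : (σ : ℂ) * Complex.exp ((((σ : ℂ) * A).arg : ℂ) * Complex.I) *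
        ((u : ℂ) / 2 * (‖A‖ : ℂ)) = (u : ℂ) / 2 * ((σ : ℂ) *
        ((‖A‖ : ℂ) * Complex.exp ((((σ : ℂ) * A).arg : ℂ) * Complex.I))) := by ring
    rw [h6, h1, ← mul_assoc (σ : ℂ), h2, one_mul, hA]
    ring
  by_cases h0 : a₁ = 0
  · -- then `a₂` is a unit
    have h2 : ‖a₂‖ = 1 := by
      rw [h0, norm_zero] at ha
      have := norm_nonneg a₂
      nlinarith
    have hs0 : s₁ = 0 := by
      rw [← norm_eq_zero, hn1, h0, norm_zero, mul_zero]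
    have hs2 : s₂ ≠ 0 := by
      rw [← norm_ne_zero_iff, hn2, h2, mul_one]
      exact hu.ne'
    refine ⟨(u : ℂ) * a₂ / s₂, ?_, ?_, ?_, hnrm⟩
    · rw [norm_div, norm_mul, Complex.norm_real, Real.norm_of_nonneg hu.le, hn2, h2, mul_one,
        div_self hu.ne']
    · rw [hc1, hs0, h0, mul_zero, mul_zero]
    · rw [hc2, div_mul_cancel₀ _ hs2]
  · have hpos : 0 < ‖a₁‖ := norm_pos_iff.2 h0
    have hs1 : s₁ ≠ 0 := by
      rw [← norm_ne_zero_iff, hn1]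
      positivity
    have hcn : ‖(u : ℂ) * a₁ / s₁‖ = 1 := by
      rw [norm_div, norm_mul, Complex.norm_real, Real.norm_of_nonneg hu.le, hn1,
        div_self (by positivity)]
    refine ⟨(u : ℂ) * a₁ / s₁, hcn, ?_, ?_, hnrm⟩
    · rw [hc1, div_mul_cancel₀ _ hs1]
    · rw [hc2]
      -- conj s₂ = u c conj a₂
      set c : ℂ := (u : ℂ) * a₁ / s₁ with hc
      have h1 : (starRingEnd ℂ) s₂ = (u : ℂ) * c * (starRingEnd ℂ) a₂ := by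
        have h3 : s₁ * ((u : ℂ) * c * (starRingEnd ℂ) a₂)
            = (u : ℂ) ^ 2 * (a₁ * (starRingEnd ℂ) a₂) := by
          rw [hc]
          field_simp
        exact mul_left_cancel₀ hs1 (hprod.trans h3.symm)
      have h2 : s₂ = (u : ℂ) * (starRingEnd ℂ) c * a₂ := by
        have h3 := congrArg (starRingEnd ℂ) h1
        rw [map_mul, map_mul, Complex.conj_conj, Complex.conj_conj, Complex.conj_ofReal] at h3
        exact h3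
      have h3 : c * (starRingEnd ℂ) c = 1 := by
        rw [Complex.mul_conj, Complex.normSq_eq_norm_sq, hcn]
        norm_num
      rw [h2]
      calc c * ((u : ℂ) * (starRingEnd ℂ) c * a₂) = (c * (starRingEnd ℂ) c) * ((u : ℂ) * a₂) := by
            ring
        _ = (u : ℂ) * a₂ := by rw [h3, one_mul]

/-- the base point with given `Yc`, `Y3`, `X0`, `w` -/
theorem hhSurj_base {k : ℕ} (A : ℂ) (y x : ℝ) (w : F_ k)
    (h : ‖A‖ ^ 2 + (y + 9 / 10) ^ 2 + x ^ 2 + ‖w‖ ^ 2 = 1) :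
    ∃ z : B_ k, Yc z = A ∧ Y3 z = y ∧ X0 z = x ∧ cw z = w := by
  have h2 : (√2 : ℝ) ^ 2 = 2 := Real.sq_sqrt (by norm_num)
  have h2' : (√2 : ℝ) ≠ 0 := by positivity
  set z₀ : ℂ := ⟨√2 / 2 * (y + 9 / 10 + x), -A.im⟩ with hz₀
  set z₁ : ℂ := ⟨√2 / 2 * (y + 9 / 10 - x), A.re⟩ with hz₁
  have hn0 : ‖z₀‖ ^ 2 = (√2 / 2 * (y + 9 / 10 + x)) ^ 2 + A.im ^ 2 := by
    rw [← Complex.normSq_eq_norm_sq, Complex.normSq_apply, hz₀]
    ring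
  have hn1 : ‖z₁‖ ^ 2 = (√2 / 2 * (y + 9 / 10 - x)) ^ 2 + A.re ^ 2 := by
    rw [← Complex.normSq_eq_norm_sq, Complex.normSq_apply, hz₁]
    ring
  have hnA : ‖A‖ ^ 2 = A.re ^ 2 + A.im ^ 2 := by
    rw [← Complex.normSq_eq_norm_sq, Complex.normSq_apply]
    ring
  have hmem : (WithLp.toLp 2 (z₀, WithLp.toLp 2 (z₁, w)) : Amb (G_ k)) ∈
      sphere (0 : Amb (G_ k)) 1 := by
    rw [mem_sphere_zero_iff_norm]
    have h3 : ‖(WithLp.toLp 2 (z₀, WithLp.toLp 2 (z₁, w)) : Amb (G_ k))‖ ^ 2 = 1 := by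
      rw [hhSurj_norm_sq]
      show ‖z₀‖ ^ 2 + (‖z₁‖ ^ 2 + ‖w‖ ^ 2) = 1
      rw [hn0, hn1, ← h, hnA]
      nlinarith [h2]
    have h4 := norm_nonneg (WithLp.toLp 2 (z₀, WithLp.toLp 2 (z₁, w)) : Amb (G_ k))
    nlinarith
  refine ⟨⟨_, hmem⟩, ?_, ?_, ?_, ?_⟩
  · show (⟨z₁.im, -z₀.im⟩ : ℂ) = A
    rw [hz₀, hz₁]
    simp
  · show (z₀.re + z₁.re) / √2 - 9 / 10 = y
    rw [hz₀, hz₁]
    simp only
    field_simp
    ring
  · show (z₀.re - z₁.re) / √2 = x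
    rw [hz₀, hz₁]
    simp only
    field_simp
    ring
  · rfl

/-- HHSURJ -/
theorem hhSurj (k : ℕ) : HhSurj_Stmt k := by
  intro σ b hσ _ n
  obtain ⟨a, d, ξ, ω⟩ := n
  set s : ℝ := a ^ 2 + ‖d‖ ^ 2 with hs
  have hs0 : 0 ≤ s := by positivity
  have hs1 : (s + 1) ≠ 0 := by positivity
  -- inverse stereographic projection
  set a₁ : ℂ := ⟨(s - 1) / (s + 1), 2 * a / (s + 1)⟩ with ha₁
  set a₂ : ℂ := ((2 / (s + 1) : ℝ) : ℂ) * d with ha₂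
  have hn1 : ‖a₁‖ ^ 2 = ((s - 1) / (s + 1)) ^ 2 + (2 * a / (s + 1)) ^ 2 := by
    rw [← Complex.normSq_eq_norm_sq, Complex.normSq_apply, ha₁]
    ring
  have hn2 : ‖a₂‖ ^ 2 = (2 / (s + 1)) ^ 2 * ‖d‖ ^ 2 := by
    rw [ha₂, norm_mul, Complex.norm_real, Real.norm_of_nonneg (by positivity)]
    ring
  have hunit : ‖a₁‖ ^ 2 + ‖a₂‖ ^ 2 = 1 := by
    rw [hn1, hn2]
    have hd : ‖d‖ ^ 2 = s - a ^ 2 := by rw [hs]; ring
    rw [hd]
    field_simp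
    ring
  -- the radius
  set g₃ : ℝ := ‖a₁‖ ^ 2 - ‖a₂‖ ^ 2 with hg₃
  set K : ℝ := 1 + ξ ^ 2 + ‖ω‖ ^ 2 with hK
  have hK1 : 0 < K := by positivity
  set R : ℝ := √(81 / 100 * g₃ ^ 2 + 19 / 100 * K) with hR
  have hR2 : R ^ 2 = 81 / 100 * g₃ ^ 2 + 19 / 100 * K := Real.sq_sqrt (by positivity)
  have hR0 : 9 / 10 * g₃ < R := by
    rw [hR]
    apply Real.lt_sqrt_of_sq_lt
    nlinarith
  set u : ℝ := (R - 9 / 10 * g₃) / K with hu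
  have hu0 : 0 < u := div_pos (by linarith) hK1
  have hquad : u ^ 2 * K + 9 / 5 * u * g₃ = 19 / 100 := by
    rw [hu]
    field_simp
    nlinarith [hR2]
  -- the base point
  have hnorm : ‖((u : ℂ) * (2 * a₁ * (starRingEnd ℂ) a₂))‖ ^ 2 + (u * g₃ + 9 / 10) ^ 2
      + (u * ξ) ^ 2 + ‖(u • ω : F_ k)‖ ^ 2 = 1 := by
    have h1 : ‖((u : ℂ) * (2 * a₁ * (starRingEnd ℂ) a₂))‖ = 2 * u * ‖a₁‖ * ‖a₂‖ := by
      rw [norm_mul, norm_mul, norm_mul, Complex.norm_real, RCLike.norm_conj,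
        Real.norm_of_nonneg hu0.le]
      norm_num
      ring
    have h2 : ‖(u • ω : F_ k)‖ = u * ‖ω‖ := by
      rw [norm_smul, Real.norm_of_nonneg hu0.le]
    rw [h1, h2]
    have h3 : (2 * u * ‖a₁‖ * ‖a₂‖) ^ 2 + (u * g₃ + 9 / 10) ^ 2 + (u * ξ) ^ 2 + (u * ‖ω‖) ^ 2
        = u ^ 2 * ((‖a₁‖ ^ 2 + ‖a₂‖ ^ 2) ^ 2 + ξ ^ 2 + ‖ω‖ ^ 2) + 9 / 5 * u * g₃ + 81 / 100 := by
      rw [hg₃]
      ring
    rw [h3, hunit]
    have h4 : ((1 : ℝ) ^ 2 + ξ ^ 2 + ‖ω‖ ^ 2) = K := by rw [hK]; ring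
    rw [h4, hquad]
    norm_num
  obtain ⟨z, hz1, hz2, hz3, hz4⟩ := hhSurj_base _ _ _ _ hnorm
  obtain ⟨c, hc, hQ1, hQ2, hnr⟩ := hhSurj_fibre (hσ z) (b z) hu0 hunit
  obtain ⟨υ, hυ⟩ := hhSurj_eT c hc
  refine ⟨(z, υ), ?_⟩
  unfold hh
  simp only
  rw [hz1, hz2, hz3, hz4, hυ, hQ1, hQ2, hnr]
  unfold Phi
  have hre : ((u : ℂ) * a₁).re = u * ((s - 1) / (s + 1)) := by
    rw [Complex.re_ofReal_mul]
  have him : ((u : ℂ) * a₁).im = u * (2 * a / (s + 1)) := by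
    rw [Complex.im_ofReal_mul]
  have hdiff : u - u * ((s - 1) / (s + 1)) = 2 * u / (s + 1) := by
    field_simp
    ring
  have hne : ¬ (u = ((u : ℂ) * a₁).re) := by
    rw [hre]
    intro h
    have h1 : 2 * u / (s + 1) = 0 := by rw [← hdiff]; linarith
    have h2 : 0 < 2 * u / (s + 1) := by positivity
    linarith
  rw [if_neg hne, hre, him, hdiff]
  have e1 : u * (2 * a / (s + 1)) / (2 * u / (s + 1)) = a := by
    field_simp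
  have e2 : (u : ℂ) * a₂ / ((2 * u / (s + 1) : ℝ) : ℂ) = d := by
    rw [ha₂]
    have hu' : (u : ℂ) ≠ 0 := by exact_mod_cast hu0.ne'
    have hs' : ((s : ℂ) + 1) ≠ 0 := by exact_mod_cast hs1
    push_cast
    field_simp
  have e3 : u * ξ / u = ξ := by
    field_simp
  have e4 : u⁻¹ • (u • ω) = ω := by
    rw [inv_smul_smul₀ hu0.ne']
  rw [e1, e2, e3, e4]

end SpaceCoord

end Pool.Agent.EvenHomeo
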