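import Pool.Agent.Lib_helper30.EvenHomeo.Defs2

/-!
# THIN: the thinning step
-/

open Set Metric Topology

namespace Pool.Agent.EvenHomeo

variable {X : Type} [NormedAddCommGroup X] [NormedSpace ℝ X] {Y B : Type} [MetricSpace Y]
  [MetricSpace B] {M : Type} [MetricSpace M]

/-- rational approximation with a large denominator -/
theorem thin_rational {α κ : ℝ} (h1 : 1 / 5 < α) (h2 : α < 1 / 3) (hκ : 0 < κ) (q₀ : ℕ) :
    ∃ p q : ℕ, Nat.Coprime p q ∧ q₀ ≤ q ∧ 1 / 5 < (p : ℝ) / q ∧ (p : ℝ) / q < 1 / 3 ∧ 1 ≤ q ∧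
      1 / (q : ℝ) ≤ κ ∧ |α - (p : ℝ) / q| ≤ κ := by
  obtain ⟨N, hN⟩ := exists_nat_gt (1 / min κ (α - 1 / 5))
  have hm : 0 < min κ (α - 1 / 5) := lt_min hκ (by linarith)
  obtain ⟨q, hq, hqp⟩ := Nat.exists_infinite_primes (max N (max q₀ 5))
  have hqN : N ≤ q := (le_max_left _ _).trans hq
  have hq0 : q₀ ≤ q := (le_max_left _ _).trans ((le_max_right _ _).trans hq)
  have hq5 : 5 ≤ q := (le_max_right _ _).trans ((le_max_right _ _).trans hq)
  have hqpos : (0 : ℝ) < q := by exact_mod_cast (by omega : 0 < q)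
  have hq5' : (5 : ℝ) ≤ q := by exact_mod_cast hq5
  have hinv : 1 / (q : ℝ) < min κ (α - 1 / 5) := by
    rw [div_lt_comm₀ hqpos hm]
    exact hN.trans_le (by exact_mod_cast hqN)
  have hinv1 : 1 / (q : ℝ) < κ := hinv.trans_le (min_le_left _ _)
  have hinv2 : 1 / (q : ℝ) < α - 1 / 5 := hinv.trans_le (min_le_right _ _)
  have hα : 0 ≤ α * q := by positivity
  set p := ⌊α * q⌋₊ with hp
  have hp1 : (p : ℝ) ≤ α * q := Nat.floor_le hα
  have hp2 : α * q < p + 1 := Nat.lt_floor_add_one _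
  have h3 : (p : ℝ) / q ≤ α := by
    rw [div_le_iff₀ hqpos]
    exact hp1
  have h4 : α - 1 / q < (p : ℝ) / q := by
    rw [lt_div_iff₀ hqpos, sub_mul, one_div, inv_mul_cancel₀ hqpos.ne']
    linarith
  refine ⟨p, q, ?_, hq0, by linarith, by linarith, by omega, hinv1.le, ?_⟩
  · rw [Nat.coprime_comm, hqp.coprime_iff_not_dvd]
    intro hdvd
    have hppos : 0 < p := by
      have h5 : (0 : ℝ) < (p : ℝ) / q := by linarith
      have h6 : (0 : ℝ) < p := by
        by_contra hcon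
        rw [not_lt] at hcon
        have : (p : ℝ) / q ≤ 0 := div_nonpos_of_nonpos_of_nonneg hcon hqpos.le
        linarith
      exact_mod_cast h6
    have hle := Nat.le_of_dvd hppos hdvd
    have hle' : (q : ℝ) ≤ p := by exact_mod_cast hle
    have h7 : (1 : ℝ) ≤ (p : ℝ) / q := by
      rw [le_div_iff₀ hqpos]
      linarith
    linarith
  · rw [abs_le]
    constructor <;> linarith

theorem thin [CompactSpace B] [CompactSpace M] (b : Base X Y B) (e : M)
    (hSh : Shift_Stmt b M e) (hUR : URex_Stmt b M e) : Thin_Stmt b M e := by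
  intro lam α δ C f hlam hlam' hα1 hα2 hδ hδ' hf ε q₀ hε
  obtain ⟨κ₁, hκ₁, hur⟩ := hUR lam C ε hlam hlam' hε
  obtain ⟨κ₂, hκ₂, hclose⟩ := D_close hlam hlam' hδ (half_pos hκ₁)
  obtain ⟨κ₃, hκ₃, htube⟩ := b.tube_close hlam hlam' hδ
  obtain ⟨p, q, hpq, hq0, hpq1, hpq2, hq1, hqκ, hdist⟩ := thin_rational hα1 hα2
    (κ := min (κ₁ / 2) (min κ₂ (κ₃ / 3))) (by positivity) q₀
  have hqκ1 : 1 / (q : ℝ) ≤ κ₁ / 2 := hqκ.trans (min_le_left _ _)
  have hqκ3 : 1 / (q : ℝ) ≤ κ₃ / 3 := hqκ.trans ((min_le_right _ _).trans (min_le_right _ _))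
  have hd1 : |α - (p : ℝ) / q| ≤ κ₁ / 2 := hdist.trans (min_le_left _ _)
  have hd2 : |α - (p : ℝ) / q| ≤ κ₂ := hdist.trans ((min_le_right _ _).trans (min_le_left _ _))
  have hd3 : |α - (p : ℝ) / q| ≤ κ₃ / 3 :=
    hdist.trans ((min_le_right _ _).trans (min_le_right _ _))
  have hqpos : (0 : ℝ) < q := by exact_mod_cast hq1
  refine ⟨p, q, hpq, hq0, hpq1, hpq2, lam, hlam, ?_⟩
  intro lam' hl1 hl2
  obtain ⟨C', j, v, j₀, hv, hj, hjoff, hT1, hT1', hT2, hT2'⟩ :=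
    hSh lam lam' C p q hl1 hl2.le hlam' hq1 hpq hpq1 hpq2
  obtain ⟨-, hf1, hf2, hf3, hf4⟩ := hf
  refine ⟨C', ⟨j, hj⟩, ?_, min (min δ (1 / 20)) (min κ₃ (1 / (8 * (q : ℝ)))), by positivity, ?_⟩
  · -- the modulus of continuity along the lines
    intro n ε' hn huc y θ σ₁ σ₂ υ hρ hσ₁ hσ₂ hσ
    have h1 := abs_le.1 hσ₁
    have h2 := abs_le.1 hσ₂
    rw [hT1 y θ σ₁ υ (by linarith) (by linarith), hT1 y θ σ₂ υ (by linarith) (by linarith)]
    have h3 := huc y θ σ₁ σ₂ (υ + ((j₀ (b.ρ y) θ + σ₁ * v (b.ρ y) θ : ℝ) : T)) hρ hσ₁ hσ₂ hσ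
    have hu : ‖(((σ₂ - σ₁) * v (b.ρ y) θ : ℝ) : T)‖ ≤ κ₁ := by
      refine (norm_coe_le _).trans ?_
      rw [abs_mul, abs_sub_comm]
      have hn' : (4 : ℝ) ≤ n := by exact_mod_cast hn
      have h4 : |σ₁ - σ₂| ≤ 1 := hσ.trans (by
        rw [div_le_one (by linarith)]
        linarith)
      calc |σ₁ - σ₂| * |v (b.ρ y) θ| ≤ 1 * (1 / (q : ℝ)) :=
            mul_le_mul h4 (hv _ _) (abs_nonneg _) zero_le_one
        _ ≤ κ₁ := by linarith
    have h5 := hur (b.ta lam ((p : ℝ) / q) y θ σ₂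
      (υ + ((j₀ (b.ρ y) θ + σ₁ * v (b.ρ y) θ : ℝ) : T))).1
      (b.ta lam ((p : ℝ) / q) y θ σ₂
      (υ + ((j₀ (b.ρ y) θ + σ₁ * v (b.ρ y) θ : ℝ) : T))).2 0 _ (by rw [abs_zero]; exact hκ₁.le) hu
    have h6 : (b.R 0 (b.ta lam ((p : ℝ) / q) y θ σ₂
      (υ + ((j₀ (b.ρ y) θ + σ₁ * v (b.ρ y) θ : ℝ) : T))).1,
      (b.ta lam ((p : ℝ) / q) y θ σ₂
      (υ + ((j₀ (b.ρ y) θ + σ₁ * v (b.ρ y) θ : ℝ) : T))).2 +
        (((σ₂ - σ₁) * v (b.ρ y) θ : ℝ) : T)) =
      b.ta lam ((p : ℝ) / q) y θ σ₂ (υ + ((j₀ (b.ρ y) θ + σ₂ * v (b.ρ y) θ : ℝ) : T)) := by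
      rw [b.R_zero]
      unfold Base.ta
      have h7 : j₀ (b.ρ y) θ + σ₂ * v (b.ρ y) θ
          = (j₀ (b.ρ y) θ + σ₁ * v (b.ρ y) θ) + (σ₂ - σ₁) * v (b.ρ y) θ := by ring
      rw [h7, AddCircle.coe_add (1 : ℝ) (j₀ (b.ρ y) θ + σ₁ * v (b.ρ y) θ)]
      congr 1
      have habc : ∀ a c w : T, υ + a - w + c = υ + (a + c) - w := by
        intro a c w
        abel
      exact habc _ _ _
    rw [h6] at h5
    calc _ ≤ _ := dist_triangle _ (C.h (b.ta lam ((p : ℝ) / q) y θ σ₂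
            (υ + ((j₀ (b.ρ y) θ + σ₁ * v (b.ρ y) θ : ℝ) : T)))) _
      _ < ε' + ε := by
        rw [dist_comm] at h5
        exact add_lt_add h3 h5
  · -- fineness
    intro δ' f' hδ'0 hδ'1 hf'
    have hδ'δ : δ' ≤ δ := (hδ'1.le.trans (min_le_left _ _)).trans (min_le_left _ _)
    have hδ'20 : δ' ≤ 1 / 20 := (hδ'1.le.trans (min_le_left _ _)).trans (min_le_right _ _)
    have hδ'κ : δ' ≤ κ₃ := (hδ'1.le.trans (min_le_right _ _)).trans (min_le_left _ _)
    have hδ'q : δ' ≤ 1 / (8 * (q : ℝ)) := (hδ'1.le.trans (min_le_right _ _)).trans (min_le_right _ _)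
    obtain ⟨-, hf'1, hf'2, hf'3, hf'4⟩ := hf'
    -- inclusion of tubes
    have hincl : ∀ a c : ℝ, -2 ≤ a → c < 2 → ∀ x ∈ b.tube lam' ((p : ℝ) / q) δ' a c,
        C'.h x ∈ C.h '' b.tube lam α δ a c := by
      rintro a c ha hc x ⟨y, θ, σ, υ, hee, haσ, hσc, rfl⟩
      have hcr := (abs_cr_le_ee (b.ρ y) θ υ).trans hee
      rw [hT1' y θ σ υ (hcr.trans hδ'q) (by linarith) (by linarith)]
      have hσ2 : |σ| ≤ 2 := abs_le.2 ⟨by linarith, by linarith⟩
      have hu : ‖((σ * v (b.ρ y) θ : ℝ) : T)‖ ≤ κ₃ := by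
        refine (norm_coe_le _).trans ?_
        rw [abs_mul]
        calc |σ| * |v (b.ρ y) θ| ≤ 2 * (1 / (q : ℝ)) :=
              mul_le_mul hσ2 (hv _ _) (abs_nonneg _) zero_le_two
          _ ≤ κ₃ := by linarith
      obtain ⟨θ₁, υ₁, h1, h2⟩ := htube y θ σ α ((p : ℝ) / q) υ _ (hee.trans hδ'κ)
        (by linarith) hu (by linarith)
      refine ⟨b.ta lam α y θ₁ σ υ₁, ⟨y, θ₁, σ, υ₁, h1, haσ, hσc, rfl⟩, ?_⟩
      rw [← h2]
      rfl
    have hWt : ∀ x ∈ b.Wt lam' ((p : ℝ) / q) δ', C'.h x ∈ C.W α δ := by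
      intro x hx
      have h1 := hincl (-δ') (1 + δ') (by linarith) (by linarith) x hx
      exact image_mono (b.tube_mono lam α le_rfl (by linarith) (by linarith)) h1
    have hWm : ∀ x ∈ b.Wm lam' ((p : ℝ) / q) δ', C'.h x ∈ C.h '' b.Wm lam α δ := by
      intro x hx
      have h1 := hincl (-1 - δ') δ' (by linarith) (by linarith) x hx
      exact image_mono (b.tube_mono lam α le_rfl (by linarith) (by linarith)) h1
    have hWm' : ∀ x ∈ b.Wm lam' ((p : ℝ) / q) δ', f (C'.h x) ∈ C.W α δ := by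
      intro x hx
      obtain ⟨x₁, hx₁, hx₂⟩ := hWm x hx
      rw [← hx₂]
      exact hf3 x₁ hx₁
    refine ⟨?_, ?_, ?_, ?_⟩
    · rintro x ⟨x₁, hx₁, rfl⟩
      exact hWt x₁ hx₁
    · rintro x ⟨x₁, hx₁, hx₂⟩
      have h1 := hf'4 x₁ hx₁
      rw [hx₂] at h1
      simp only [Homeomorph.symm_apply_apply] at h1
      obtain ⟨x₂, hx₃, hx₄⟩ := h1
      have h2 := hWm' x₂ hx₃
      rw [hx₄] at h2
      exact h2
    · -- forward
      intro x hx
      simp only at hx ⊢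
      obtain ⟨⟨z, υ⟩, rfl⟩ := C'.surj x
      have hne' : (z, υ) ∉ b.Wm lam' ((p : ℝ) / q) δ' := fun h => hx (hWm' _ h)
      rw [hf'1 _ hne']
      rw [hj z υ] at hx ⊢
      have hne : (z, υ + j z) ∉ b.Wm lam α δ := fun h => hx (hf3 _ h)
      rw [hf1 _ hne]
      by_cases hz : z ∈ range b.β
      · obtain ⟨y, s, θ, hs0, hs1, -, rfl⟩ := b.exists_rep hz
        rw [hT2 y s θ υ hs0 hs1, b.L_β lam α hs0 hs1]
        have h1 := b.off_Wm hδ hs0 hs1 hne
        have h2 := hclose (b.ρ y) (θ + α * (1 - s)) (θ + (p : ℝ) / q * (1 - s)) (by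
          have : θ + α * (1 - s) - (θ + (p : ℝ) / q * (1 - s)) = (α - (p : ℝ) / q) * (1 - s) := by
            ring
          rw [this, abs_mul, abs_of_nonneg (by linarith : (0:ℝ) ≤ 1 - s)]
          calc |α - (p : ℝ) / q| * (1 - s) ≤ |α - (p : ℝ) / q| * 1 :=
                mul_le_mul_of_nonneg_left (by linarith) (abs_nonneg _)
            _ ≤ κ₂ := by linarith) h1
        set u : T := D lam (b.ρ y) (θ + (p : ℝ) / q * (1 - s)) - D lam (b.ρ y) (θ + α * (1 - s))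
          + ((v (b.ρ y) (θ + (p : ℝ) / q * (1 - s)) : ℝ) : T) with hu
        have hun : ‖u‖ ≤ κ₁ := by
          have h3 := norm_coe_le (v (b.ρ y) (θ + (p : ℝ) / q * (1 - s)))
          have h4 := hv (b.ρ y) (θ + (p : ℝ) / q * (1 - s))
          rw [norm_sub_rev] at h2
          calc ‖u‖ ≤ ‖D lam (b.ρ y) (θ + (p : ℝ) / q * (1 - s)) -
                D lam (b.ρ y) (θ + α * (1 - s))‖ + _ := norm_add_le _ _
            _ ≤ κ₁ := by linarith
        have h5 := hur (b.β (y, s, θ + α))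
          (υ + j (b.β (y, s, θ)) + D lam (b.ρ y) (θ + α * (1 - s))) ((p : ℝ) / q - α) u
          (by rw [abs_sub_comm]; linarith) hun
        have h6 : (b.R ((p : ℝ) / q - α) (b.β (y, s, θ + α)),
            υ + j (b.β (y, s, θ)) + D lam (b.ρ y) (θ + α * (1 - s)) + u) =
            (b.β (y, s, θ + (p : ℝ) / q), υ + j (b.β (y, s, θ)) +
            D lam (b.ρ y) (θ + (p : ℝ) / q * (1 - s)) +
            ((v (b.ρ y) (θ + (p : ℝ) / q * (1 - s)) : ℝ) : T)) := by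
          rw [b.R_β, hu]
          congr 1
          · congr 3
            ring
          · abel
        rw [h6] at h5
        exact h5
      · rw [b.L_off lam' _ hz, b.L_off lam α hz, hj,
          hjoff _ (fun h => hz ((b.R_range_iff _ _).1 h)), hjoff _ hz]
        have h5 := hur (b.R α z) (υ + 0) ((p : ℝ) / q - α) 0
          (by rw [abs_sub_comm]; linarith) (by rw [norm_zero]; exact hκ₁.le)
        rw [← b.R_add, add_zero, add_zero, sub_add_cancel] at h5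
        rw [add_zero]
        exact h5
    · -- backward
      intro x hx
      simp only at hx ⊢
      obtain ⟨⟨z, υ⟩, rfl⟩ := C'.surj x
      have hne' : (z, υ) ∉ b.Wt lam' ((p : ℝ) / q) δ' := fun h => hx (hWt _ h)
      rw [hf'2 _ hne']
      rw [hj z υ] at hx ⊢
      have hne : (z, υ + j z) ∉ b.Wt lam α δ := fun h => hx ⟨_, h, rfl⟩
      rw [hf2 _ hne]
      by_cases hz : z ∈ range b.β
      · obtain ⟨y, s, θ, hs0, hs1, -, rfl⟩ := b.exists_rep hz
        rw [hT2' y s θ υ hs0 hs1, b.L_symm_β lam α hs0 hs1]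
        have h1 := b.off_Wt hδ hs0 hs1 hne
        have h2 := hclose (b.ρ y) (θ - α * s) (θ - (p : ℝ) / q * s) (by
          have : θ - α * s - (θ - (p : ℝ) / q * s) = -((α - (p : ℝ) / q) * s) := by
            ring
          rw [this, abs_neg, abs_mul, abs_of_nonneg hs0]
          calc |α - (p : ℝ) / q| * s ≤ |α - (p : ℝ) / q| * 1 :=
                mul_le_mul_of_nonneg_left (by linarith) (abs_nonneg _)
            _ ≤ κ₂ := by linarith) h1
        set u : T := D lam (b.ρ y) (θ - α * s) - D lam (b.ρ y) (θ - (p : ℝ) / q * s)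
          - ((v (b.ρ y) (θ - (p : ℝ) / q * s) : ℝ) : T) with hu
        have hun : ‖u‖ ≤ κ₁ := by
          have h3 := norm_coe_le (v (b.ρ y) (θ - (p : ℝ) / q * s))
          have h4 := hv (b.ρ y) (θ - (p : ℝ) / q * s)
          calc ‖u‖ ≤ ‖D lam (b.ρ y) (θ - α * s) - D lam (b.ρ y) (θ - (p : ℝ) / q * s)‖ + _ :=
                norm_sub_le _ _
            _ ≤ κ₁ := by linarith
        have h5 := hur (b.β (y, s, θ - α))
          (υ + j (b.β (y, s, θ)) - D lam (b.ρ y) (θ - α * s)) (α - (p : ℝ) / q) u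
          (by linarith) hun
        have h6 : (b.R (α - (p : ℝ) / q) (b.β (y, s, θ - α)),
            υ + j (b.β (y, s, θ)) - D lam (b.ρ y) (θ - α * s) + u) =
            (b.β (y, s, θ - (p : ℝ) / q), υ + j (b.β (y, s, θ)) -
            D lam (b.ρ y) (θ - (p : ℝ) / q * s) -
            ((v (b.ρ y) (θ - (p : ℝ) / q * s) : ℝ) : T)) := by
          rw [b.R_β, hu]
          congr 1
          · congr 3
            ring
          · abel
        rw [h6] at h5
        exact h5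
      · rw [b.L_symm_off lam' _ hz, b.L_symm_off lam α hz, hj,
          hjoff _ (fun h => hz ((b.R_range_iff _ _).1 h)), hjoff _ hz]
        have h5 := hur (b.R (-α) z) (υ + 0) (α - (p : ℝ) / q) 0
          (by linarith) (by rw [norm_zero]; exact hκ₁.le)
        have h6 : α - (p : ℝ) / q + -α = -((p : ℝ) / q) := by ring
        rw [← b.R_add, h6, add_zero, add_zero] at h5
        rw [add_zero]
        exact h5

end Pool.Agent.EvenHomeo
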